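import Pool.Agent.Lib.MP_9f84a9_co.P.A1
import Pool.Agent.Lib.MP_9f84a9_co.P.A3
import Pool.Agent.Lib.MP_9f84a9_co.P.B1
import Pool.Agent.Lib.MP_9f84a9_co.P.B2
import Pool.Agent.Lib.MP_9f84a9_co.P.B4
import Pool.Agent.Lib.MP_9f84a9_co.P.B5
import Pool.Agent.Lib.MP_9f84a9_co.R.P.pt
import Pool.Agent.Lib.MP_9f84a9_co.R.P.off
import Pool.Agent.Lib.MP_9f84a9_co.R.P.gn1
import Pool.Agent.Lib.MP_9f84a9_co.R.P.gn
import Pool.Agent.Lib.MP_9f84a9_co.R.P.ins
import Pool.Agent.Lib.MP_9f84a9_co.R.P.big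
import Pool.Agent.Lib.MP_9f84a9_co.R.P.side
import Pool.Agent.Lib.MP_9f84a9_co.R.P.bary
import Pool.Agent.Lib.MP_9f84a9_co.R.P.exit
import Pool.Agent.Lib.MP_9f84a9_co.R.P.ms
import Pool.Agent.Lib.MP_9f84a9_co.R.P.ext
import Pool.Agent.Lib.MP_9f84a9_co.R.P.nb
import Pool.Agent.Lib.MP_9f84a9_co.R.P.seg
import Pool.Agent.Lib.MP_9f84a9_co.R.P.sg0
import Pool.Agent.Lib.MP_9f84a9_co.R.P.net
import Pool.Agent.Lib.MP_9f84a9_co.R.P.root
import Pool.Agent.Lib.MP_9f84a9_co.R.P.nam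
import Pool.Agent.Lib.MP_9f84a9_co.R.P.dev
import Pool.Agent.Lib.MP_9f84a9_co.R.P.par
import Pool.Agent.Lib.MP_9f84a9_co.R.P.pln
import Pool.Agent.Lib.MP_9f84a9_co.R.P.comb
import Pool.Agent.Lib.MP_9f84a9_co.R.P.bag
import Pool.Agent.Lib.MP_9f84a9_co.R.P.tree
import Pool.Agent.Lib.MP_9f84a9_co.R.P.mstX
import Pool.Agent.Lib.MP_9f84a9_co.R.P.gsum
import Pool.Agent.Lib.MP_9f84a9_co.R.P.scl
import Pool.Agent.Lib.MP_9f84a9_co.R.P.low
import Pool.Agent.Lib.MP_9f84a9_co.R.P.cfg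
import Pool.Agent.Lib.MP_9f84a9_co.R.P.one
import Pool.Agent.Lib.MP_9f84a9_co.R.P.redP

/-!
# MP_9f84a9_co, section 1: assembly
-/

set_option autoImplicit false

namespace Pool.Agent.Lib.MP_9f84a9_co

open R in
/-- section 1: the frozen statement follows from Theorem Y -/
theorem t_red : S_red := by
  have hA1 : S_A1 := t_A1
  have hA3 : S_A3 := t_A3
  have hB1 : S_B1 := t_B1
  have hB2 : S_B2 := t_B2
  have hB4 : S_B4 := t_B4
  have hB5 : S_B5 := t_B5
  have hpt : R.S_pt := t_pt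
  have hoff : R.S_off := t_off
  have hgn1 : R.S_gn1 := t_gn1 hpt hoff
  have hgn : R.S_gn := t_gn hpt hoff hgn1
  have hins : R.S_ins := t_ins
  have hbig : R.S_big := t_big
  have hside : R.S_side := t_side
  have hbary : R.S_bary := t_bary
  have hexit : R.S_exit := t_exit hbary hA1
  have hms : R.S_ms := t_ms
  have hext : R.S_ext := t_ext hB4 hB5
  have hnb : R.S_nb := t_nb hB1 hB2 hside
  have hseg : R.S_seg := t_seg hexit hnb hms hext
  have hsg0 : R.S_sg0 := t_sg0 hseg hnb hext hms hB1 hB2 hB4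
  have hnet : R.S_net := t_net hsg0 hext hA1 hB4
  have hroot : R.S_root := t_root
  have hnam : R.S_nam := t_nam
  have hdev : R.S_dev := t_dev hroot hnam hins hseg hnet hext hms hA1 hB4
  have hpar : R.S_par := t_par
  have hpln : R.S_pln := t_pln
  have hcomb : R.S_comb := t_comb
  have hbag : R.S_bag := t_bag hcomb
  have htree : R.S_tree := t_tree hpar hpln hcomb hbag
  have hmstX : R.S_mstX := t_mstX
  have hgsum : R.S_gsum := t_gsum
  have hscl : R.S_scl := t_scl hA1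
  have hlow : R.S_low := t_low hA3 hB5
  have hcfg : R.S_cfg := t_cfg hgsum hscl hlow hA1 hB4
  have hone : R.S_one := t_one hbig hins hgn hdev hcfg
  exact t_redP htree hmstX hone

end Pool.Agent.Lib.MP_9f84a9_co
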