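import Pool.Agent.Lib.MP_9f84a9_co.Out

/-!
# MP_9f84a9_co, section 1 (reduction of the frozen statement to Theorem Y): definitions

Planar networks hanging at a point, discs made of empty triangles, extension of discs.
-/

set_option autoImplicit false

namespace Pool.Agent.Lib.MP_9f84a9_co

open Finset

namespace R

/-- planar binary network (to be hung at a point) -/
inductive PN : Type
  | leaf (x : E) : PN
  | node (z : E) (l r : PN) : PN

namespace PN

/-- the point which is joined to the point where the network hangs -/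
def top : PN → E
  | leaf x => x
  | node z _ _ => z

def leaves : PN → List E
  | leaf x => [x]
  | node _ l r => l.leaves ++ r.leaves

def nodes : PN → List E
  | leaf _ => []
  | node z l r => z :: (l.nodes ++ r.nodes)

noncomputable def len : PN → ℝ
  | leaf _ => 0
  | node z l r => dist z l.top + dist z r.top + l.len + r.len

end PN

/-- length of `B` together with the edge from `q` to its top -/
noncomputable def hang (q : E) (B : PN) : ℝ := dist q B.top + B.len

theorem hang_leaf (q x : E) : hang q (PN.leaf x) = dist q x := by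
  simp [hang, PN.top, PN.len]

theorem hang_node (q z : E) (l r : PN) :
    hang q (PN.node z l r) = dist q z + hang z l + hang z r := by
  simp only [hang, PN.top, PN.len]
  ring

/-- the open segment from `q` to `z` misses `Y` -/
def Miss (Y : Finset E) (q z : E) : Prop :=
  ∀ t : ℝ, 0 < t → t < 1 → (1 - t) • q + t • z ∉ Y

/-- the network `B` hanging at `q` is in general position with respect to `Y` -/
def Gen (Y : Finset E) : E → PN → Prop
  | q, PN.leaf x => Miss Y q x
  | q, PN.node z l r => z ∉ Y ∧ Miss Y q z ∧ Gen Y z l ∧ Gen Y z r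

/-- positive disc with vertices in `Y`, only its vertices lie over `Y` -/
structure Emb {N : ℕ} (p : Fin N → E) (Y : Finset E) (D : Dsc N) : Prop where
  ok : D.ok
  spos : D.SPos p
  tri : ¬ (D.P = PT.nil ∧ D.R = PT.nil)
  emp : ∀ x, In D.K x → pos p x ∈ Y → ∃ v ∈ D.vl, x = vx v

/-- `D'` contains `D`, with at most `k` new vertices -/
def Ext {N : ℕ} (k : ℕ) (D D' : Dsc N) : Prop :=
  (∀ f ∈ D.K, f ∈ D'.K) ∧ D'.vl.length ≤ D.vl.length + k

/-- names: all in `Y`, every point of `Y` has at least `M` names -/
structure Nam {N : ℕ} (p : Fin N → E) (Y : Finset E) (M : ℕ) : Prop where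
  mem : ∀ v, p v ∈ Y
  many : ∀ y ∈ Y, M ≤ Nat.card {v : Fin N // p v = y}

/-- `z` is inside the positively oriented triangle `A B C` -/
def Ins (A B C z : E) : Prop := 0 < ar A B z ∧ 0 < ar B C z ∧ 0 < ar C A z

open Classical in
/-- number of pairs of points of `Y` whose open segment meets the half open segment `(q, z]` -/
noncomputable def ms (Y : Finset E) (q z : E) : ℕ :=
  ((Y ×ˢ Y).filter fun c => ∃ t s : ℝ, 0 < t ∧ t ≤ 1 ∧ 0 < s ∧ s < 1 ∧
    (1 - t) • q + t • z = (1 - s) • c.1 + s • c.2).card

/-- `x` is a point of the triangle `u v w`, and the segment from it to `z` starts inside of the triangle -/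
structure Ent {N : ℕ} (p : Fin N → E) (u v w : Fin N) (x : Pt N) (z : E) : Prop where
  nn : ∀ i, 0 ≤ x i
  sum : ∑ i, x i = 1
  sup : Sup x {u, v, w}
  hw : x w = 0 → 0 ≤ ar (p u) (p v) z
  hu : x u = 0 → 0 ≤ ar (p v) (p w) z
  hv : x v = 0 → 0 ≤ ar (p w) (p u) z

end R

end Pool.Agent.Lib.MP_9f84a9_co
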