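import Pool.Agent.Lib.MP_9f84a9_co.R.Defs
import Pool.Agent.Lib.MP_9f84a9_co.StmA
import Pool.Agent.Lib.MP_9f84a9_co.StmB

/-!
# MP_9f84a9_co, section 1, part 1 (plane geometry): statements with complete proofs in the docstrings

Everything is written with the signed area `ar`. Useful facts, all by `simp [ar]; ring` (coordinates `0`, `1`; `ext i; fin_cases i` for equations
between points): `ar` is invariant under cyclic permutations, changes sign under transpositions, and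
`ar a b ((1 - t) • x + t • y) = (1 - t) * ar a b x + t * ar a b y` (affine in each variable); more generally
`ar a b (∑ i, c i • y i) = ∑ i, c i * ar a b (y i)` if `∑ i, c i = 1`.
-/

set_option autoImplicit false

namespace Pool.Agent.Lib.MP_9f84a9_co

open Finset Filter Topology

namespace R

/-! ### General position -/

/-- [R pt] A point can be moved off finitely many lines and points.
PROOF. Look at the parabola `z_s = z + !₂[s, s ^ 2]`, `s > 0` small. For `a ≠ b` the function `s ↦ ar a b z_s = ar a b z + (b 0 - a 0) s ^ 2 - (b 1 - a 1) s` is a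
polynomial of degree `≤ 2` which is not zero (`b 0 - a 0` and `b 1 - a 1` are not both `0`), so it has at most two zeros; `z_s = y` for at most one `s`
(first coordinate). The finitely many bad `s` are avoided by arbitrarily small `s > 0`, and `z_s → z`, `U` open. -/
def S_pt : Prop :=
  ∀ (U : Set E) (z : E) (ε : ℝ) (F : Finset (E × E)) (Y : Finset E), IsOpen U → z ∈ U → 0 < ε →
    (∀ q ∈ F, q.1 ≠ q.2) → ∃ z' ∈ U, dist z z' < ε ∧ z' ∉ Y ∧ ∀ q ∈ F, ar q.1 q.2 z' ≠ 0

/-- [R off] A segment whose line misses a point.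
PROOF. If `y = (1 - t) • q + t • z` with `0 < t < 1`, then `ar q z y = 0` (compute). -/
def S_off : Prop :=
  (∀ (Y : Finset E) (q z : E), q ∉ Y → (∀ y ∈ Y, ar q y z ≠ 0) → Miss Y q z) ∧
  (∀ (Y : Finset E) (q z : E), z ∉ Y → (∀ y ∈ Y, y ≠ q → ar q y z ≠ 0) → Miss Y q z) ∧
  (∀ (Y : Finset E) (q x : E), q ∉ Y → (∀ y ∈ Y, y ≠ x → ar x y q ≠ 0) → Miss Y q x)

/-- [R gn1] General position, networks hanging at a point which is already in general position. (Uses `S_pt`, `S_off`.)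
PROOF. Induction on `B` for all `q`, `ε`. `B = leaf x`: `B' = B`, `Miss Y q x` by the third part of `S_off` (the hypothesis for the pairs `(x, y)`). `B = node z l r`: `S_pt`
with `ε / 6` and `F` = the pairs `(y₁, y₂)`, `y₁ ≠ y₂` in `Y`, and the pairs `(q, y)`, `y ∈ Y` (`q ∉ Y`) gives `z'`. `Miss Y q z'` by the first part of `S_off`. By induction there are `l'`
and `r'` for `z'` and `ε / 4`: `hang z' l' ≤ hang z' l + ε / 4 ≤ hang z l + ε / 6 + ε / 4` (triangle inequality for `dist z' l.top`), same for `r`, and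
`dist q z' ≤ dist q z + ε / 6`; total `≤ hang q B + 3 ε / 6 + 2 ε / 4` (`hang_node`). -/
def S_gn1 : Prop :=
  ∀ (Y : Finset E) (U : Set E) (B : PN) (q : E) (ε : ℝ), IsOpen U → 0 < ε → q ∉ Y →
    (∀ y₁ ∈ Y, ∀ y₂ ∈ Y, y₁ ≠ y₂ → ar y₁ y₂ q ≠ 0) → (∀ x ∈ B.leaves, x ∈ Y) →
    (∀ z ∈ B.nodes, z ∈ U) →
    ∃ B' : PN, B'.leaves = B.leaves ∧ (∀ z ∈ B'.nodes, z ∈ U) ∧ Gen Y q B' ∧
      hang q B' ≤ hang q B + ε

/-- [R gn] General position, networks hanging at a point `x1 ∈ Y`. (Uses `S_pt`, `S_off`, `S_gn1`.)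
PROOF. `S_pt` for `z` with `ε / 6` and `F` = the pairs of different points of `Y`: `z'`. `Miss Y x1 z'` by the second part of `S_off`. Then `S_gn1` for `l` and `r` at `z'` with `ε / 4`; the
estimate as in `S_gn1`. (`ar x1 z' y ≠ 0` since `ar x1 y z' ≠ 0`.) -/
def S_gn : Prop :=
  ∀ (Y : Finset E) (U : Set E) (z : E) (l r : PN) (x1 : E) (ε : ℝ), IsOpen U → 0 < ε → x1 ∈ Y →
    (∀ x ∈ (PN.node z l r).leaves, x ∈ Y) → (∀ z' ∈ (PN.node z l r).nodes, z' ∈ U) →
    ∃ (z' : E) (l' r' : PN), (PN.node z' l' r').leaves = (PN.node z l r).leaves ∧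
      (∀ u ∈ (PN.node z' l' r').nodes, u ∈ U) ∧ Gen Y x1 (PN.node z' l' r') ∧
      (∀ y ∈ Y, y ≠ x1 → ar x1 z' y ≠ 0) ∧
      hang x1 (PN.node z' l' r') ≤ hang x1 (PN.node z l r) + ε

/-! ### The big triangle -/

/-- [R ins] The inside of a triangle.
PROOF. (1) `z = (s₁ / s) • A + (s₂ / s) • B + (s₃ / s) • C` with `s₁ = ar B C z`, `s₂ = ar C A z`, `s₃ = ar A B z > 0`, `s = s₁ + s₂ + s₃ = ar A B C` (computation in coordinates), a convex
combination of points of `Y`. (2) `ar A B z` etc. are continuous in `z`. -/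
def S_ins : Prop :=
  ∀ (A B C : E),
    (∀ (Y : Finset E) (z : E), A ∈ Y → B ∈ Y → C ∈ Y → Ins A B C z →
      z ∈ convexHull ℝ (Y : Set E)) ∧
    IsOpen {z : E | Ins A B C z}

/-- [R big] A big triangle around a finite set, with vertices far away.
PROOF. Let `R₀ ≥ 1` be larger than `r` and than all `|s 0| + |s 1|`, `s ∈ S`. Take `A = !₂[-10 R₀, -5 R₀]`, `B = !₂[10 R₀, -5 R₀]`, `C = !₂[0, 10 R₀]`: then for `|s 0|, |s 1| ≤ R₀`:
`ar A B s = 20 R₀ (s 1 + 5 R₀) > 0`, `ar B C s = -10 R₀ (s 1 + 5 R₀) - 15 R₀ (s 0 - 10 R₀) ≥ -60 R₀² + 135 R₀² > 0`, `ar C A s` similarly by symmetry. The distances are at least `4 R₀ ≥ r`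
(compare one coordinate: `EuclideanSpace.dist_eq`, or `|x i| ≤ ‖x‖`). -/
def S_big : Prop :=
  ∀ (S : Finset E) (r : ℝ), ∃ A B C : E, (∀ s ∈ S, Ins A B C s) ∧
    ∀ s ∈ S, r ≤ dist A s ∧ r ≤ dist B s ∧ r ≤ dist C s

/-! ### Triangles -/

/-- [R side] If a point of the convex hull of `Y` is strictly on one side of a line then so is a point of `Y`.
PROOF. `{x | ar a b x ≤ 0}` is convex (`ar a b` is affine), so if it contained `Y` it would contain the hull (`convexHull_min`). -/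
def S_side : Prop :=
  ∀ (Y : Finset E) (a b z : E), z ∈ convexHull ℝ (Y : Set E) → 0 < ar a b z →
    ∃ y ∈ Y, 0 < ar a b y

/-- [R bary] Barycentric coordinates. (`0 < ar (p u) (p v) (p w)` implies that `u, v, w` are distinct.)
PROOF. `s = ar (p u) (p v) (p w) > 0`, `ζ = Pi.single u (ar (p v) (p w) z / s) + Pi.single v (ar (p w) (p u) z / s) + Pi.single w (ar (p u) (p v) z / s)`. The sum is `1` since
`ar v w z + ar w u z + ar u v z = ar u v w` (ring), `pos p ζ = z` by a computation in coordinates (`field_simp`, `ring`). -/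
def S_bary : Prop :=
  ∀ (N : ℕ) (p : Fin N → E) (u v w : Fin N) (z : E), 0 < ar (p u) (p v) (p w) →
    ∃ ζ : Pt N, Sup ζ {u, v, w} ∧ ∑ i, ζ i = 1 ∧ pos p ζ = z ∧
      ζ w * ar (p u) (p v) (p w) = ar (p u) (p v) z ∧
      ζ u * ar (p u) (p v) (p w) = ar (p v) (p w) z ∧
      ζ v * ar (p u) (p v) (p w) = ar (p w) (p u) z

/-- [R exit] Where a segment leaves a triangle. (Uses `S_bary`, `S_A1`.)
PROOF. Let `ζ` be the barycentric coordinates of `z` (`S_bary`). If all are `≥ 0`: first alternative, `y = ζ`. Otherwise let `i` range over the elements of `{u, v, w}` with `ζ i < 0`; there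
`x i > 0` (`Ent`: if `x i = 0` then `ζ i ≥ 0`). Let `c` be such an `i` for which `t = x i / (x i - ζ i) ∈ (0, 1)` is smallest, and `x' = (1 - t) • x + t • ζ`. Then all `x' i ≥ 0`
(clear if `ζ i ≥ 0`; if `ζ i < 0` since `t ≤ x i / (x i - ζ i)`), `x' c = 0`, `∑ x' = 1`, `pos p x' = (1 - t) • pos p x + t • z`. Let `(a, b, c)` be the cyclic rotation of `(u, v, w)` with this
`c`. If `x' a = 0` then `x' = vx b`, so `pos p x' = p b ∈ Y`, against `Miss`; same for `b`. Finally `ar (p a) (p b) z = ζ c * s < 0`. -/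
def S_exit : Prop :=
  ∀ (N : ℕ) (p : Fin N → E) (Y : Finset E) (u v w : Fin N) (x : Pt N) (z : E),
    (∀ i, p i ∈ Y) → 0 < ar (p u) (p v) (p w) → Ent p u v w x z → Miss Y (pos p x) z →
    (∃ y : Pt N, (∀ i, 0 ≤ y i) ∧ ∑ i, y i = 1 ∧ Sup y {u, v, w} ∧ pos p y = z) ∨
    (∃ (a b c : Fin N) (t : ℝ) (x' : Pt N),
      ((a = u ∧ b = v ∧ c = w) ∨ (a = v ∧ b = w ∧ c = u) ∨ (a = w ∧ b = u ∧ c = v)) ∧
      0 < t ∧ t < 1 ∧ (∀ i, 0 ≤ x' i) ∧ ∑ i, x' i = 1 ∧ Sup x' {a, b} ∧ 0 < x' a ∧ 0 < x' b ∧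
      pos p x' = (1 - t) • pos p x + t • z ∧ ar (p a) (p b) z < 0)

/-- [R ms] The measure decreases when the segment crosses an open segment between two points of `Y`, and it is at most `|Y| ^ 2`.
PROOF. Let `q' = (1 - t) • q + t • z`. If `c` is counted for `(q', z]` with parameter `t' ∈ (0, 1]`, then it is counted for `(q, z]` with the parameter `t + t' (1 - t) ∈ (0, 1]`. The pair `(A, B)` is
counted for `(q, z]` (parameter `t`). It is not counted for `(q', z]`: `ar A B q' = 0` (`q'` is on the line), so `ar A B ((1 - t') • q' + t' • z) = t' * ar A B z ≠ 0`, but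
`ar A B ((1 - s) • A + s • B) = 0`. So the filtered set is strictly smaller (`Finset.card_lt_card`). Bound: `Finset.card_filter_le`, `card_product`. -/
def S_ms : Prop :=
  (∀ (Y : Finset E) (q z A B : E) (t s : ℝ), 0 < t → t < 1 → 0 < s → s < 1 → A ∈ Y → B ∈ Y →
    (1 - t) • q + t • z = (1 - s) • A + s • B → ar A B z ≠ 0 →
    ms Y ((1 - t) • q + t • z) z < ms Y q z) ∧
  (∀ (Y : Finset E) (q z : E), ms Y q z ≤ Y.card ^ 2)

/-! ### Discs of empty triangles -/

/-- [R ext] Enlarging a disc. (Uses `S_A1`, `S_A2`, `S_A3`, `S_B4`, `S_B5`.)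
PROOF. (1) `Ext` is reflexive and transitive. (2) `vl`: `S_B4` (each vertex of `D` is in a facet, facets consist of vertices). (3) `In`, `Stp`, `Path` are monotone in `K` (induction on `Path`).
(4) `dK` decreases: the set of lengths becomes larger (it is nonempty by `S_B5` and bounded below by `0`: `csInf_le_csInf`). -/
def S_ext : Prop :=
  ∀ (N : ℕ) (D D' : Dsc N) (k : ℕ), D.ok → D'.ok → Ext k D D' →
    (∀ (D'' : Dsc N) (k' : ℕ), Ext k' D' D'' → Ext (k + k') D D'') ∧
    (∀ v ∈ D.vl, v ∈ D'.vl) ∧ (∀ x, In D.K x → In D'.K x) ∧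
    (∀ (c : Pt N → Pt N → ℝ) x y n r, Path D.K c x y n r → Path D'.K c x y n r) ∧
    (∀ (c : Pt N → Pt N → ℝ) x y, IsCost c → In D.K x → In D.K y → dK D'.K c x y ≤ dK D.K c x y)

/-- [R nb] The triangle on the other side of an edge. (Uses `S_B1`, `S_B2`, `S_B3`, `S_B4`, `S_side`, `S_A1`.)
PROOF. By `S_B2` (for the facet `{u, v, w}` and `u`, `v`) there is `D₁ ~ D` with `D₁.P = node w₁ l r`, `{u, v, w} = {D₁.a, D₁.b, w₁}`, `{D₁.a, D₁.b} = {u, v}`; `D₁` is positive (`S_B1`), so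
`0 < ar (p D₁.a) (p D₁.b) (p w₁)`, `w₁ = w`; if `D₁.a = v`, `D₁.b = u` this contradicts `0 < ar (p u) (p v) (p w)`. So `D₁ = ⟨u, v, node w l r, R⟩`. If `R = node w' l' r'`, take `D' = D₁`:
`{v, u, w'}` is a facet and `0 < ar (p v) (p u) (p w')` as `D₁` is positive. If `R = nil`: by `S_side` some `y ∈ Y` has `0 < ar (p v) (p u) y`; take such `y` with
`ar (p v) (p u) y` least, and a name `w'` of `y` which is not in `D.vl` (there are at least `M > D.vl.length` names of `y`, pigeonhole), `D' = ⟨u, v, node w l r, node w' nil nil⟩`. Then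
`D'.K = D.K ∪ {{v, u, w'}}` (here `D.P, D.R` are not both `nil`), `D'.vl.length = D.vl.length + 1`, `D'` is `ok` and positive. `emp`: let `x` be supported in
`{v, u, w'}`, `pos p x ∈ Y`. `ar (p v) (p u) (pos p x) = x w' * ar (p v) (p u) (p w')`. If `0 < x w' < 1` this is positive and smaller than the minimum, impossible. If `x w' = 1`
then `x = vx w'`. If `x w' = 0` then `x` is supported in `{u, v} ⊆ {u, v, w}`, so `In D.K x`, and `Emb.emp` for `D`. -/
def S_nb : Prop :=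
  ∀ (N M : ℕ) (p : Fin N → E) (Y : Finset E) (D : Dsc N) (u v w : Fin N) (z : E),
    Nam p Y M → Emb p Y D → D.vl.length < M → {u, v, w} ∈ D.K → 0 < ar (p u) (p v) (p w) →
    z ∈ convexHull ℝ (Y : Set E) → ar (p u) (p v) z < 0 →
    ∃ (D' : Dsc N) (w' : Fin N), Emb p Y D' ∧ Ext 1 D D' ∧ {v, u, w'} ∈ D'.K ∧
      0 < ar (p v) (p u) (p w')

/-- [R seg] Following a segment, when it starts inside of a triangle. (Uses `S_exit`, `S_nb`, `S_ms`, `S_ext`, `S_A1`.)
PROOF. Strong induction on `ms Y (pos p x) z`. `S_exit`: in the first alternative `D' = D`, and the path is the single step `x → y` in the facet `{u, v, w}` (a path with one step and length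
`dist (pos p x) z + 0`). In the second alternative let `(a, b, c)`, `t`, `x'` be as in `S_exit`. `{a, b, c} = {u, v, w}` (a rotation), so the step `x → x'` is in `D.K`, its length is
`dist (pos p x) (pos p x') = t * dist (pos p x) z`. `S_nb` for `(a, b, c)` (`ar` is invariant under rotations) gives `D₁`, `w'`, `Ext 1 D D₁`. Now `Ent p b a w' x' z`: `x' w' = 0`, and
`0 ≤ ar (p b) (p a) z`, while `x' b, x' a > 0`. `Miss Y (pos p x') z` (a part of the old segment). `ms Y (pos p x') z < ms Y (pos p x) z` by `S_ms` with `A = p a`, `B = p b`, `s = x' b`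
(`pos p x' = x' a • p a + x' b • p b`). The induction hypothesis for `D₁` gives `D'`, `y` and a path from `x'` to `y` of length `dist (pos p x') z = (1 - t) * dist (pos p x) z`; the step
`x → x'` in front (`Path.cons`; in `D'.K` by `S_ext`). Number of vertices: `1 + (ms of the rest) ≤ ms`. -/
def S_seg : Prop :=
  ∀ (N M : ℕ) (p : Fin N → E) (Y : Finset E) (D : Dsc N) (u v w : Fin N) (x : Pt N) (z : E),
    Nam p Y M → Emb p Y D → D.vl.length + ms Y (pos p x) z < M → {u, v, w} ∈ D.K →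
    0 < ar (p u) (p v) (p w) → z ∈ convexHull ℝ (Y : Set E) → Ent p u v w x z →
    Miss Y (pos p x) z →
    ∃ (D' : Dsc N) (y : Pt N), Emb p Y D' ∧ Ext (ms Y (pos p x) z) D D' ∧ In D'.K y ∧
      pos p y = z ∧ ∃ k, Path D'.K (ce p) x y k (dist (pos p x) z)

/-- [R sg0] Following a segment from an arbitrary point which is not over `Y`. (Uses `S_seg`, `S_nb`, `S_ext`, `S_ms`, `S_B1`, `S_B2`, `S_B4`, `S_A1`.)
PROOF. `x` is supported in a facet `f`, which by `S_B2` and `S_B1` is of the form `{u, v, w}` with `0 < ar (p u) (p v) (p w)` (a top triangle of some `D₁ ~ D`, positive). If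
`Ent p u v w x z` then `S_seg`. Otherwise, after a rotation of `(u, v, w)`, `x w = 0` and `ar (p u) (p v) z < 0`. Then `x u, x v > 0` (otherwise `x` is a vertex and `pos p x ∈ Y`). `S_nb` gives `D₁`, `w'`;
`Ent p v u w' x z` (`x w' = 0` or `w' ∈ {u, v}`, the latter is impossible as `ar > 0`; `x` is supported in `{u, v}`), and `S_seg` for `D₁`. In total at most
`1 + ms ≤ 1 + |Y| ^ 2` new vertices. If `z ∈ Y` then `y` is a vertex by `Emb.emp`. The last claim: `dK ≤` length of any path (`csInf_le`, bounded below by `0`). -/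
def S_sg0 : Prop :=
  ∀ (N M : ℕ) (p : Fin N → E) (Y : Finset E) (D : Dsc N) (x : Pt N) (z : E),
    Nam p Y M → Emb p Y D → D.vl.length + (Y.card ^ 2 + 1) < M → In D.K x → pos p x ∉ Y →
    z ∈ convexHull ℝ (Y : Set E) → Miss Y (pos p x) z →
    ∃ (D' : Dsc N) (y : Pt N), Emb p Y D' ∧ Ext (Y.card ^ 2 + 1) D D' ∧ In D'.K y ∧
      pos p y = z ∧ (z ∈ Y → ∃ v ∈ D'.vl, y = vx v) ∧
      dK D'.K (ce p) x y ≤ dist (pos p x) z

/-- [R net] Following a network. (Uses `S_sg0`, `S_ext`, `S_A1`, `S_B5`.)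
PROOF. Induction on `B` for all `D`, `x`; `W = |Y| ^ 2 + 1`, `e(leaf) = 1`, `e(node z l r) = 1 + e(l) + e(r)`, i.e. `e(B) = 2 * B.leaves.length - 1`. `B = leaf x₀`: `S_sg0` with `z = x₀ ∈ Y`
(`subset_convexHull`) gives `D'` and the vertex `v`, `p v = pos p (vx v) = x₀`; `B' = leaf v`. `B = node z l r`: `S_sg0` gives `D₁`, `y`; induction for `l` at `(D₁, y)`
gives `D₂`, `l'`; induction for `r` at `(D₂, y)` gives `D'`, `r'`; `B' = node y l' r'`. The nodes of `l'` are in `D₂.K`, so in `D'.K` (`S_ext`), and all distances in `l'`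
only decrease from `D₂` to `D'` (`S_ext`, induction on `l'`: `hangN D' l' ≤ hangN D₂ l'` if all its nodes and `vx` of its leaves are in `D₂.K`). `hang_node`. -/
def S_net : Prop :=
  ∀ (N M : ℕ) (p : Fin N → E) (Y : Finset E) (B : PN) (D : Dsc N) (x : Pt N),
    Nam p Y M → Emb p Y D →
    D.vl.length + (Y.card ^ 2 + 1) * (2 * B.leaves.length) < M → In D.K x → pos p x ∉ Y →
    (∀ z ∈ B.nodes, z ∈ convexHull ℝ (Y : Set E)) → (∀ z ∈ B.leaves, z ∈ Y) →
    Gen Y (pos p x) B →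
    ∃ (D' : Dsc N) (B' : Net N), Emb p Y D' ∧
      Ext ((Y.card ^ 2 + 1) * (2 * B.leaves.length - 1)) D D' ∧
      (∀ z ∈ B'.nodes, In D'.K z) ∧ (∀ v ∈ B'.leaves, v ∈ D'.vl) ∧ B'.leaves.map p = B.leaves ∧
      dK D'.K (ce p) x B'.top + B'.len (dK D'.K (ce p)) ≤ hang (pos p x) B

/-- [R root] The first triangle.
PROOF. Write `a` for `A - x1` etc. and `e = z - x1`. Existence of SOME `u, v ∈ Y` with `0 < ar x1 u z`, `0 < ar x1 z v`, `0 < ar x1 u v` (i.e. `e` is in the open cone between `u - x1` and `v - x1`): as `x1` is inside of `A B C`,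
`ar x1 A B, ar x1 B C, ar x1 C A > 0`. The numbers `α = ar x1 z A`, `β = ar x1 z B`, `γ = ar x1 z C` are nonzero (`A, B, C ≠ x1`) and
`ar x1 B C * α + ar x1 C A * β + ar x1 A B * γ = 0` (identity, `ring`), so they do not have all the same sign; hence in the cyclic order `A, B, C, A` there is a consecutive pair `(u, v)` with
`ar x1 z u < 0 < ar x1 z v`, and for this pair `ar x1 u v > 0`, `ar x1 u z = - ar x1 z u > 0`. Now among all pairs `(u, v) ∈ Y × Y` with these three properties take one with `ar x1 u v` least.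
Emptiness: let `y = α • x1 + β • u + γ • v ∈ Y` with `α, β, γ ≥ 0`, sum `1`, none of them `1`. `y ≠ x1`: otherwise `β (u - x1) + γ (v - x1) = 0` with linearly independent vectors. So
`ar x1 z y ≠ 0`, say `ar x1 z y > 0` (`y` on the side of `v`). Then `β, γ`: `ar x1 u y = γ * ar x1 u v`; `γ > 0` (as `ar x1 z y = β * ar x1 z u + γ * ar x1 z v` and `ar x1 z u < 0`), so the pair
`(u, y)` has the three properties and `ar x1 u y = γ ar x1 u v < ar x1 u v`, contradiction to the minimality. If `ar x1 z y < 0`: `β > 0`, the pair `(y, v)`: `ar x1 y v = β * ar x1 u v`. -/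
def S_root : Prop :=
  ∀ (Y : Finset E) (A B C x1 z : E), A ∈ Y → B ∈ Y → C ∈ Y → x1 ∈ Y → Ins A B C x1 →
    (∀ y ∈ Y, y ≠ x1 → ar x1 z y ≠ 0) →
    ∃ u ∈ Y, ∃ v ∈ Y, 0 < ar x1 u z ∧ 0 < ar x1 z v ∧ 0 < ar x1 u v ∧
      ∀ α β γ : ℝ, 0 ≤ α → 0 ≤ β → 0 ≤ γ → α + β + γ = 1 → α • x1 + β • u + γ • v ∈ Y →
        α = 1 ∨ β = 1 ∨ γ = 1

/-- [R nam] Names.
PROOF. `N = M * Y.card`, `Fin N ≃ Fin M × Y` (`Fintype.equivFin`, cardinality), `p` = second projection; the fibre over `y` is in bijection with `Fin M`. -/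
def S_nam : Prop :=
  ∀ (Y : Finset E) (M : ℕ), ∃ (N : ℕ) (p : Fin N → E), Nam p Y M

/-- [R dev] The development of a planar network: the output of part 1. (Uses `S_root`, `S_nam`, `S_ins`, `S_seg`, `S_net`, `S_ext`, `S_ms`, `S_A1`, `S_A2`, `S_B5`.)
PROOF. `M = 4 + (|Y| ^ 2 + 1) * (2 * (number of leaves) + 2)`, names by `S_nam`. `S_root` for `x1`, `z`: `u`, `v`. Choose names `n1, n2, n3` of `x1, u, v` (`M ≥ 1`; they are different because `ar x1 u v ≠ 0`), `D₀ = ⟨n1, n2, node n3 nil nil, nil⟩`,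
`D₀.K = {{n1, n2, n3}}`, `Emb p Y D₀` (`emp` is the last part of `S_root`: a point `x` of the facet has `pos p x = x n1 • x1 + x n2 • u + x n3 • v`; if e.g. `x n1 = 1` then
`x = vx n1`). `Ent p n1 n2 n3 (vx n1) z`: `hw`: `ar x1 u z ≥ 0`; `hv`: `ar v x1 z = ar x1 z v ≥ 0`; `hu` is empty. `S_seg` (with `ms ≤ |Y| ^ 2`): `D₁`, `y` with `pos p y = z ∉ Y`. Then `S_net` for
`l` at `(D₁, y)`: `D₂`, `l'`, and for `r` at `(D₂, y)`: `D`, `r'`. `B' = node y l' r'`; `tlen (leaf n1, B') = dK (vx n1) y + 0 + (dK y l'.top + dK y r'.top + len l' + len r')` and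
`hang x1 (node z l r) = dist x1 z + hang z l + hang z r`. Distances decrease when the disc grows, as in `S_net`. -/
def S_dev : Prop :=
  ∀ (Y : Finset E) (A B C x1 z : E) (l r : PN), A ∈ Y → B ∈ Y → C ∈ Y → x1 ∈ Y → Ins A B C x1 →
    (∀ u ∈ (PN.node z l r).nodes, Ins A B C u) → (∀ x ∈ (PN.node z l r).leaves, x ∈ Y) →
    Gen Y x1 (PN.node z l r) → (∀ y ∈ Y, y ≠ x1 → ar x1 z y ≠ 0) →
    ∃ (N : ℕ) (p : Fin N → E) (D : Dsc N) (n1 : Fin N) (B' : Net N), (∀ v, p v ∈ Y) ∧ D.ok ∧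
      D.SPos p ∧ n1 ∈ D.vl ∧ p n1 = x1 ∧ (∀ z ∈ B'.nodes, In D.K z) ∧
      (∀ v ∈ B'.leaves, v ∈ D.vl) ∧ B'.leaves.map p = (PN.node z l r).leaves ∧
      Net.tlen (dK D.K (ce p)) (Net.leaf n1, B') ≤ hang x1 (PN.node z l r)

end R

end Pool.Agent.Lib.MP_9f84a9_co
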