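import Pool.Agent.Lib.MP_9f84a9_co.R.Stm1

/-!
# MP_9f84a9_co, section 1, part 2 (graphs, the one-piece configuration): statements with complete proofs in the docstrings
-/

set_option autoImplicit false

namespace Pool.Agent.Lib.MP_9f84a9_co

open Finset

namespace R

/-! ### From a connected graph to a planar network -/

open Classical in
/-- the double sum of the lengths of the edges -/
noncomputable def WG (S : Finset E) (G : SimpleGraph S) : ℝ :=
  ∑ a : S, ∑ b : S, if G.Adj a b then dist (a : E) (b : E) else 0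

/-- sum of the `hang` of a list of networks hanging at `q` -/
noncomputable def hangs (q : E) (L : List PN) : ℝ := (L.map (hang q)).sum

/-- [R par] Parents in a connected graph.
PROOF. `ρ = G.dist r`. For `v ≠ r` a shortest walk from `v` to `r` (`SimpleGraph.Connected.exists_walk_length_eq_dist`) is `cons h w` with `h : G.Adj v u`; `G.dist u r ≤ w.length =
G.dist v r - 1`; `π v = u` (`G.dist` is symmetric). `π r = r`. -/
def S_par : Prop :=
  ∀ (V : Type) [Fintype V] (G : SimpleGraph V) (r : V), G.Connected →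
    ∃ (π : V → V) (ρ : V → ℕ), ∀ v, v ≠ r → G.Adj v (π v) ∧ ρ (π v) < ρ v

open Classical in
/-- [R pln] The edges `{v, π v}` are different edges of the graph.
PROOF. The map `V' × Bool → V × V`, `V' = {v // v ≠ r}`, `(v, true) ↦ (v, π v)`, `(v, false) ↦ (π v, v)` is injective: `(v, π v) = (π v', v')` would give `ρ v < ρ v' < ρ v`. All its values are pairs
of adjacent vertices. So the left side is the sum of `dist` over the image (symmetry of `dist`), part of the nonnegative double sum over all adjacent pairs. -/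
def S_pln : Prop :=
  ∀ (V : Type) [Fintype V] (G : SimpleGraph V) (r : V) (f : V → E) (π : V → V) (ρ : V → ℕ),
    (∀ v, v ≠ r → G.Adj v (π v) ∧ ρ (π v) < ρ v) →
    2 * ∑ v ∈ univ.erase r, dist (f v) (f (π v)) ≤
      ∑ a, ∑ b, if G.Adj a b then dist (f a) (f b) else 0

/-- [R comb] Several networks hanging at `q` are combined to one.
PROOF. Induction on `L`. `L = [B₁]`: `B = B₁`, `hang q' B₁ ≤ dist q' q + hang q B₁` (triangle inequality). `L = B₁ :: L'`, `L' ≠ []`, `C` for `L'`: `B = node q B₁ C`,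
`hang q' B = dist q' q + hang q B₁ + hang q C` (`hang_node`) and `hang q C ≤ dist q q + hangs q L'`. -/
def S_comb : Prop :=
  ∀ (q : E) (L : List PN), L ≠ [] →
    ∃ B : PN, B.leaves = L.flatMap PN.leaves ∧ (∀ z ∈ B.nodes, z = q ∨ ∃ C ∈ L, z ∈ C.nodes) ∧
      ∀ q' : E, hang q' B ≤ dist q' q + hangs q L

open Classical in
/-- [R bag] Networks hanging at the vertices of a rooted tree are collected at the root. (Uses `S_comb`.)
PROOF. Induction on `W.card` for all `β`. If `W = {r}`: `L = β r`. Otherwise let `s ∈ W \ {r}` with `ρ s` maximal; no `v ∈ W \ {r}` has `π v = s` (it would have `ρ s < ρ v`). So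
`W' = W.erase s` satisfies the hypotheses. Let `t = π s ∈ W'` (`t ≠ s` since `ρ t < ρ s`). If `β s = []`: `β' = β`. If `β s ≠ []`: `S_comb` for `q = f s`, `L = β s` gives `B` with
`hang (f t) B ≤ dist (f t) (f s) + hangs (f s) (β s)`; `β' = β` except `β' t = B :: β t`. Then
`∑_{W'} hangs (f v) (β' v) + ∑_{W' \ {r}} dist ≤ ∑_W hangs (f v) (β v) + ∑_{W \ {r}} dist`, and the leaves are the same up to order (use counts, or multisets). -/
def S_bag : Prop :=
  ∀ (V : Type) [Fintype V] (f : V → E) (r : V) (π : V → V) (ρ : V → ℕ) (W : Finset V)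
    (β : V → List PN), r ∈ W → (∀ v ∈ W, v ≠ r → π v ∈ W ∧ ρ (π v) < ρ v) →
    ∃ L : List PN, ((L.flatMap PN.leaves : List E) : Multiset E) =
        ∑ v ∈ W, (((β v).flatMap PN.leaves : List E) : Multiset E) ∧
      (∀ B ∈ L, ∀ z ∈ B.nodes, (∃ v, z = f v) ∨ ∃ v ∈ W, ∃ C ∈ β v, z ∈ C.nodes) ∧
      hangs (f r) L ≤ ∑ v ∈ W, hangs (f v) (β v) + ∑ v ∈ W.erase r, dist (f v) (f (π v))

/-- [R tree] A connected graph contains a planar network. (Uses `S_par`, `S_pln`, `S_comb`, `S_bag`.)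
PROOF. `V = S`, `f` the inclusion, `r = x1`, `π`, `ρ` from `S_par`, `W = univ`, `β v = [leaf v]` if `v ∈ X`, `v ≠ x1`, else `[]`. `hangs (f v) (β v) = 0` (`hang_leaf`, `dist_self`). `S_bag` gives `L` at `x1` with the
leaves `X.erase x1` (each once; compare multisets: `∑_{v : S} if v ∈ X.erase x1 then {v} else 0 = (X.erase x1).val`). `L ≠ []` as `X.erase x1` is not empty. `S_comb` for `q = q' = x1`:
`hang x1 B ≤ 0 + hangs x1 L ≤ ∑ dist (f v) (f (π v))`, and `S_pln`. -/
def S_tree : Prop :=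
  ∀ (X S : Finset E) (x1 : E) (G : SimpleGraph S), X ⊆ S → x1 ∈ X → 2 ≤ X.card → G.Connected →
    ∃ B : PN, (B.leaves : Multiset E) = (X.erase x1).val ∧ (∀ z ∈ B.nodes, z ∈ S) ∧
      2 * hang x1 B ≤ WG S G

/-! ### Minimum spanning trees of `X` and the one-piece configuration -/

/-- [R mst] A shortest connected graph on `X`.
PROOF. There are finitely many graphs on the finite type `X` (`Finite (SimpleGraph X)`), at least one (`⊤`) is connected; take a minimum of `WG X`. If `2 ≤ X.card` a connected graph has an edge, between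
different points; all terms are `≥ 0`. -/
def S_mstX : Prop :=
  ∀ (X : Finset E), X.Nonempty →
    ∃ H : SimpleGraph X, H.Connected ∧ (∀ H' : SimpleGraph X, H'.Connected → WG X H ≤ WG X H') ∧
      (2 ≤ X.card → 0 < WG X H)

/-- [R gsum] A family of weighted pairs which joins all points of `X` is at least as long as a shortest connected graph.
PROOF. `H`: `x ~ y` iff `x ≠ y` and `(e x, e y, r) ∈ l` or `(e y, e x, r) ∈ l` for some `r`. It is connected: `Joins` (all classes `e x` are in `Cl`; a chain in `ReflTransGen` from `e x` to `e y` goes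
through classes which are labels in `l`; by the hypothesis `hl` they are values of `e`). `WG X H ≤ 2 * ∑ t.2.2`: for adjacent `x, y` there is `t ∈ l` with `{t.1, t.2.1} = {e x, e y}` and
`dist x y ≤ M * t.2.2`; so `∑_{x,y} [x ~ y] dist x y ≤ ∑_{x,y} ∑_{t ∈ l} ([t = (e x, e y, _)] + [t = (e y, e x, _)]) M t.2.2 ≤ 2 M ∑_{t ∈ l} t.2.2` (`e` is injective, `t.2.2 ≥ 0`). -/
def S_gsum : Prop :=
  ∀ (X : Finset E) (e : X → ℕ) (Cl : Finset ℕ) (M : ℝ) (l : List (ℕ × ℕ × ℝ)),
    X.Nonempty → Function.Injective e → (∀ x, e x ∈ Cl) → 0 < M → Joins Cl l →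
    (∀ H' : SimpleGraph X, H'.Connected → 2 * M ≤ WG X H') →
    (∀ t ∈ l, 0 ≤ t.2.2 ∧ ∃ x y : X, e x = t.1 ∧ e y = t.2.1 ∧ dist (x : E) (y : E) ≤ M * t.2.2) →
    1 ≤ (l.map (·.2.2)).sum

/-- [R scl] Scaling. (Uses `S_A1`.)
PROOF. `pos (M⁻¹ • p) x = M⁻¹ • pos p x`, so `ce (M⁻¹ • p) = M⁻¹ * ce p`, paths correspond with lengths multiplied by `M⁻¹`, and `sInf (M⁻¹ • A) = M⁻¹ * sInf A` (`Real.sInf_smul_of_nonneg`). `tlen`: induction on nets.
`ar` is multiplied by `M⁻¹ ^ 2`; `SPos → WPos` by induction on `PT`. -/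
def S_scl : Prop :=
  ∀ (N : ℕ) (D : Dsc N) (p : Fin N → E) (M : ℝ), 0 < M →
    (∀ x y, dK D.K (ce fun v => M⁻¹ • p v) x y = M⁻¹ * dK D.K (ce p) x y) ∧
    (∀ T : Net N × Net N, Net.tlen (dK D.K (ce fun v => M⁻¹ • p v)) T =
      M⁻¹ * Net.tlen (dK D.K (ce p)) T) ∧
    (D.SPos p → D.WPos fun v => M⁻¹ • p v)

/-- [R low] `dK` is at least the Euclidean distance. (Uses `S_A3`, `S_B5`.)
PROOF. `S_A3` with `ρ = ce p`. -/
def S_low : Prop :=
  ∀ (N : ℕ) (D : Dsc N) (p : Fin N → E), D.ok → ∀ x y, In D.K x → In D.K y →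
    dist (pos p x) (pos p y) ≤ dK D.K (ce p) x y

/-- [R cfg] The one-piece configuration. (Uses `S_gsum`, `S_scl`, `S_low`, `S_A1`, `S_B4`.)
PROOF. `M > 0`. Let `e : X → ℕ` be injective with `Cl = image of e` (`X ≃ Fin X.card`), `Cl.card = X.card`; `lab v = e (p v)` if `p v ∈ X`, `lab v = e (p n1)` otherwise. `q = ⟨D, fun v => M⁻¹ • p v, lab, (leaf n1, B')⟩`,
`P` a bound for the finitely many distances. `InD Cl P [q]`: `ok`: `dok`; `wpos` by `S_scl`; `labs`; `nods` (the nodes of `T` are those of `B'`); `lvs`: leaves are `n1` and the leaves of `B'`; `diam`.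
`conn`: one step: both classes are classes of leaves of `q`: `a = e x`; `x = p n1` or `x ∈ X.erase (p n1)`, i.e. `x = p v` for a leaf `v` of `B'`. `cnt`: `lv.length = 1 + (X.card - 1)`. `mst`: for `t ∈ l`,
`Ch` gives `v, w ∈ D.vl` with `lab v = t.1`, `lab w = t.2.1`, `q.d (vx v) (vx w) ≤ t.2.2`, so by `S_low` `M⁻¹ * dist (p v) (p w) ≤ t.2.2` (`vx v`, `vx w` are in `K` by `S_B4`, `S_A1`). If `p v, p w ∈ X`: `x = p v`, `y = p w`.
If `p v ∉ X`, `p w ∈ X`: `x = p n1`, `y = p w`, `dist x y ≤ dist (p v) (p w)` by the hypothesis `hfar`. `p v ∈ X`, `p w ∉ X`: symmetric. Both `∉ X`: `x = y = p n1`. So `S_gsum` applies. `ThmY` gives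
`√3 / 2 ≤ Lc [q] = q.L = M⁻¹ * tlen (dK D.K (ce p)) (leaf n1, B')` (`S_scl`). -/
def S_cfg : Prop :=
  ∀ (X : Finset E) (M : ℝ) (N : ℕ) (p : Fin N → E) (D : Dsc N) (n1 : Fin N) (B' : Net N),
    ThmY X.card → 0 < M → (∀ H' : SimpleGraph X, H'.Connected → 2 * M ≤ WG X H') →
    p n1 ∈ X → (∀ v, p v ∈ X ∨ ∀ y ∈ X, ∀ y' ∈ X, dist y y' ≤ dist (p v) y') →
    D.ok → D.SPos p → n1 ∈ D.vl → (∀ z ∈ B'.nodes, In D.K z) → (∀ v ∈ B'.leaves, v ∈ D.vl) →
    ((B'.leaves.map p : List E) : Multiset E) = (X.erase (p n1)).val →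
    Real.sqrt 3 / 2 * M ≤ Net.tlen (dK D.K (ce p)) (Net.leaf n1, B')

/-- [R one] The Steiner ratio for planar networks. (Uses `S_big`, `S_ins`, `S_gn`, `S_dev`, `S_cfg`.)
PROOF. It is enough to prove `√3 / 2 * M ≤ hang x1 B + ε` for all `ε > 0` (`le_of_forall_pos_le_add`). `S_big` for `X ∪` the nodes of `B` and `r =` a bound for the distances in `X`: `A, B, C`. `Y = X ∪ {A, B, C}`,
`U = {z | Ins A B C z}` (open, `S_ins`). `S_gn`: a network `B₁` in general position with the same leaves, nodes in `U` and `hang x1 B₁ ≤ hang x1 B + ε`. `S_dev` for `B₁`: `N`, `p`, `D`, `n1`, `B'`. `S_cfg`: `p v ∈ Y`: either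
in `X`, or one of `A, B, C`, and `dist y y' ≤ r ≤ dist A y'` etc. -/
def S_one : Prop :=
  ∀ (X : Finset E) (M : ℝ) (x1 z : E) (l r : PN), ThmY X.card → 0 < M →
    (∀ H' : SimpleGraph X, H'.Connected → 2 * M ≤ WG X H') → x1 ∈ X →
    ((PN.node z l r).leaves : Multiset E) = (X.erase x1).val →
    Real.sqrt 3 / 2 * M ≤ hang x1 (PN.node z l r)

/-- [R red] Section 1. (Uses `S_tree`, `S_mstX`, `S_one`.)
PROOF. `H` from `S_mstX`. If `X.card = 1`: `WG X H = 0` (no two different points), the right side is `≥ 0`. If `2 ≤ X.card`: `x1 ∈ X`, `S_tree` gives `B`. If `B = leaf x`: `X.erase x1 = {x}`, `hang x1 B = dist x1 x`, and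
`WG X H ≤ WG X ⊤ = 2 * dist x1 x ≤ WG S G`, `√3 / 2 ≤ 1`. If `B = node z l r`: `S_one` with `M = WG X H / 2`: `√3 / 2 * WG X H = 2 * (√3 / 2 * M) ≤ 2 * hang x1 B ≤ WG S G`. -/
def S_redP : Prop := S_tree → S_mstX → S_one → S_red

end R

end Pool.Agent.Lib.MP_9f84a9_co
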